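import Pool.Agent.W780.BB.Main

set_option autoImplicit false

/-!
Assembly.
-/

namespace Pool.Agent.W780.BB

open Complex Set MeasureTheory Filter Topology Pool.Agent.W780.PG

open scoped Real ComplexConjugate

theorem structure_thm (hMain : S_Main) (hLim : S_Lim) (hDir : S_Dir) {n : ℕ}
    {p : Fin (n + 3) → ℂ} (hp : IsConvexPolygon p) (S : Set (ℂ × ℝ)) (hS : MeasurableSet S)
    (hI : IsInvariant p S) (hF : FinitePerimeter p S) :
    ∃ Θ : Set ℝ, MeasurableSet Θ ∧ (∀ θ, θ + 2 * π ∈ Θ ↔ θ ∈ Θ) ∧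
      volume {x : ℂ × ℝ | x ∈ phase p ∧ ¬ (x ∈ S ↔ x.2 ∈ Θ)} = 0 :=
  hDir n p hp S hS hI (fun η δ h1 h2 => hLim hMain n p hp S hS hI hF η δ h1 h2)

theorem trivial_of_irrational (hMain : S_Main) (hLim : S_Lim) (hDir : S_Dir) (hRefl : S_Refl)
    (hRot : S_Rot) (hTau : S_Tau) {n : ℕ}
    {p : Fin (n + 3) → ℂ} (hp : IsConvexPolygon p) (hirr : ∃ i, Irrational (ang p i / π))
    (S : Set (ℂ × ℝ)) (hS : MeasurableSet S)
    (hI : IsInvariant p S) (hF : FinitePerimeter p S) : IsTrivial p S := by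
  obtain ⟨Θ, hΘ, hper, hnull⟩ := structure_thm hMain hLim hDir hp S hS hI hF
  have hrf := hRefl n p hp S hS hI Θ hΘ hper hnull
  obtain ⟨i, hi⟩ := hirr
  obtain ⟨k, hk⟩ := hTau n p hp i
  have hirr2 : Irrational ((tau p i - tau p (i - 1)) / π) := by
    rw [hk]
    have : (π - ang p i + 2 * k * π) / π = ((1 + 2 * k : ℤ) : ℝ) - ang p i / π := by
      have := Real.pi_ne_zero
      field_simp
      push_cast
      ring
    rw [this]
    exact hi.intCast_sub _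
  rcases hRot Θ (tau p i) (tau p (i - 1)) hΘ hper (hrf i) (hrf (i - 1)) hirr2 with h | h
  · left
    refine measure_mono_null (t := {x : ℂ × ℝ | x ∈ phase p ∧ ¬ (x ∈ S ↔ x.2 ∈ Θ)} ∪
      (univ ×ˢ Θ)) ?_ ?_
    · rintro x ⟨h1, h2⟩
      by_cases hx : x.2 ∈ Θ
      · exact Or.inr ⟨mem_univ _, hx⟩
      · exact Or.inl ⟨h1, fun h3 => hx (h3.mp h2)⟩
    · refine measure_union_null hnull ?_
      rw [Measure.volume_eq_prod, Measure.prod_prod, h, mul_zero]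
  · right
    refine measure_mono_null (t := {x : ℂ × ℝ | x ∈ phase p ∧ ¬ (x ∈ S ↔ x.2 ∈ Θ)} ∪
      (univ ×ˢ Θᶜ)) ?_ ?_
    · rintro x ⟨h1, h2⟩
      by_cases hx : x.2 ∈ Θ
      · exact Or.inl ⟨h1, fun h3 => h2 (h3.mpr hx)⟩
      · exact Or.inr ⟨mem_univ _, hx⟩
    · refine measure_union_null hnull ?_
      rw [Measure.volume_eq_prod, Measure.prod_prod, h, mul_zero]

theorem final (hMain : S_Main) (hLim : S_Lim) (hDir : S_Dir) (hRefl : S_Refl)
    (hRot : S_Rot) (hTau : S_Tau) (hConv : S_Conv) {n : ℕ}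
    {p : Fin (n + 3) → ℂ} (hp : IsConvexPolygon p) :
    (∀ A : Set (ℂ × ℝ), MeasurableSet A → IsInvariant p A → FinitePerimeter p A →
      ∃ Θ : Set ℝ, MeasurableSet Θ ∧
        volume {x : ℂ × ℝ | x ∈ phase p ∧ ¬ (x ∈ A ↔ x.2 ∈ Θ)} = 0) ∧
    ((∃ i, Irrational (ang p i / π)) ↔
      ∀ A : Set (ℂ × ℝ), MeasurableSet A → IsInvariant p A → FinitePerimeter p A →
        IsTrivial p A) := by
  refine ⟨fun A h1 h2 h3 => ?_, fun hirr A h1 h2 h3 => ?_, fun hall => ?_⟩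
  · obtain ⟨Θ, a, -, c⟩ := structure_thm hMain hLim hDir hp A h1 h2 h3
    exact ⟨Θ, a, c⟩
  · exact trivial_of_irrational hMain hLim hDir hRefl hRot hTau hp hirr A h1 h2 h3
  · by_contra hcon
    push Not at hcon
    obtain ⟨S, a, b, c, d⟩ := hConv hTau n p hp hcon
    exact d (hall S a b c)

end Pool.Agent.W780.BB
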