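import Pool.Agent.W780.PG.Defs

set_option autoImplicit false

/-!
The billiard in a convex polygon: definitions.

A state is a pair `(z, θ)`: position `z` in the plane `ℂ` and direction angle `θ`, a real number
taken modulo `2 π`. Convex polygons, their regions and angles are defined in `PG.Defs`.
-/

namespace Pool.Agent.W780.BB

open Complex Set MeasureTheory Pool.Agent.W780.PG

open scoped Real

/-- The unit vector with direction angle `θ`. -/
noncomputable def dir (θ : ℝ) : ℂ := exp ((θ : ℂ) * I)

/-- The direction angle of the side from `p i` to `p (i + 1)`. -/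
noncomputable def tau {n : ℕ} (p : Fin (n + 3) → ℂ) (i : Fin (n + 3)) : ℝ := arg (p (i + 1) - p i)

/-- A set of states is invariant under the billiard flow in the region of `p`: it does not matter if
`2 π` is added to the direction angle (`periodic`); membership does not change during free motion
inside the region (`free`) and under elastic reflection in an inner point `y` of a side
(`reflect`), where the direction angle `θ` becomes `2 τ - θ`, `τ` the direction angle of the
side. Nothing is required of the motion after a vertex has been hit. -/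
structure IsInvariant {n : ℕ} (p : Fin (n + 3) → ℂ) (A : Set (ℂ × ℝ)) : Prop where
  periodic : ∀ (z : ℂ) (θ : ℝ), (z, θ + 2 * π) ∈ A ↔ (z, θ) ∈ A
  free : ∀ (z : ℂ) (θ s : ℝ), z ∈ region p → z + s • dir θ ∈ region p →
    ((z, θ) ∈ A ↔ (z + s • dir θ, θ) ∈ A)
  reflect : ∀ i, ∀ y ∈ openSegment ℝ (p i) (p (i + 1)), ∀ θ s r : ℝ, 0 < s → 0 < r →
    y - s • dir θ ∈ region p → y + r • dir (2 * tau p i - θ) ∈ region p →
    ((y - s • dir θ, θ) ∈ A ↔ (y + r • dir (2 * tau p i - θ), 2 * tau p i - θ) ∈ A)

/-- The phase space, with its Lebesgue measure. -/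
def phase {n : ℕ} (p : Fin (n + 3) → ℂ) : Set (ℂ × ℝ) := region p ×ˢ Ico 0 (2 * π)

/-- The set of directions `{θ | (z, θ) ∈ A}` has finite perimeter, on average over `z`: turning all
directions by an angle `h` changes `A` by a set of measure at most `C h`. -/
def FinitePerimeter {n : ℕ} (p : Fin (n + 3) → ℂ) (A : Set (ℂ × ℝ)) : Prop :=
  ∃ C : ℝ, ∀ h : ℝ, 0 < h → h < 1 →
    volume {x : ℂ × ℝ | x ∈ phase p ∧ ¬ (x ∈ A ↔ (x.1, x.2 + h) ∈ A)} ≤ ENNReal.ofReal (C * h)

/-- `A` is null or conull in the phase space. -/
def IsTrivial {n : ℕ} (p : Fin (n + 3) → ℂ) (A : Set (ℂ × ℝ)) : Prop :=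
  volume (phase p ∩ A) = 0 ∨ volume (phase p \ A) = 0

end Pool.Agent.W780.BB
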