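import Pool.Agent.W780.BB.Final0
import Pool.Agent.W12.BB.Unif
import Pool.Agent.W12.BB.Fan
import Pool.Agent.W327.BB.Alt

set_option autoImplicit false

namespace Pool.Agent.W780.BB

open Complex Set MeasureTheory Filter Topology Pool.Agent.W780.PG

open scoped Real ComplexConjugate

theorem finished {n : ℕ} {p : Fin (n + 3) → ℂ} (hp : IsConvexPolygon p) :
    (∀ A : Set (ℂ × ℝ), MeasurableSet A → IsInvariant p A → FinitePerimeter p A →
      ∃ Θ : Set ℝ, MeasurableSet Θ ∧
        volume {x : ℂ × ℝ | x ∈ phase p ∧ ¬ (x ∈ A ↔ x.2 ∈ Θ)} = 0) ∧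
    ((∃ i, Irrational (ang p i / π)) ↔
      ∀ A : Set (ℂ × ℝ), MeasurableSet A → IsInvariant p A → FinitePerimeter p A →
        IsTrivial p A) := by
  have hR : S_Ref := Pool.Agent.W347.BB.ref
  have hB : S_Basic := Pool.Agent.W174.PG.basic
  exact finished0 (Pool.Agent.W12.BB.Fan.fan hR)
    (Pool.Agent.W12.BB.Unif.unif W327.BB.alt (Pool.Agent.W340.BB.Trip.trip hR hB)) hp

end Pool.Agent.W780.BB
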