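import Pool.Agent.W780.BB.Asm
import Pool.Agent.W347.BB.Ref
import Pool.Agent.W333.BB.Mp
import Pool.Agent.W762.BB.Open
import Pool.Agent.W108.BB.Uniq
import Pool.Agent.W973.BB.Rev
import Pool.Agent.W82.BB.Inv
import Pool.Agent.W337.BB.Tau
import Pool.Agent.W337.BB.Gen
import Pool.Agent.W340.BB.Trip
import Pool.Agent.W345.BB.Exist
import Pool.Agent.W462.BBFlow
import Pool.Agent.W74.BB.Bad
import Pool.Agent.W396.BB.Lim
import Pool.Agent.W803.BB.Dir
import Pool.Agent.W101.BB.Refl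
import Pool.Agent.W363.BB.Rot
import Pool.Agent.W230.BB.Conv
import Pool.Agent.W174.PG.Basic
import Pool.Agent.W975.PG.Hull

set_option autoImplicit false

namespace Pool.Agent.W780.BB

open Complex Set MeasureTheory Filter Topology Pool.Agent.W780.PG

open scoped Real ComplexConjugate

theorem finished0 (hFan : S_Fan) (hUnif : S_Unif) {n : ℕ}
    {p : Fin (n + 3) → ℂ} (hp : IsConvexPolygon p) :
    (∀ A : Set (ℂ × ℝ), MeasurableSet A → IsInvariant p A → FinitePerimeter p A →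
      ∃ Θ : Set ℝ, MeasurableSet Θ ∧
        volume {x : ℂ × ℝ | x ∈ phase p ∧ ¬ (x ∈ A ↔ x.2 ∈ Θ)} = 0) ∧
    ((∃ i, Irrational (ang p i / π)) ↔
      ∀ A : Set (ℂ × ℝ), MeasurableSet A → IsInvariant p A → FinitePerimeter p A →
        IsTrivial p A) := by
  have hB : S_Basic := Pool.Agent.W174.PG.basic
  have hH : S_Hull := Pool.Agent.W975.PG.hull hB
  have hR : S_Ref := Pool.Agent.W347.BB.ref
  have hM : S_Mp := Pool.Agent.W333.BB.mp
  have hO : S_Open := Pool.Agent.W762.BB.open_it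
  have hU : S_Uniq := Pool.Agent.W108.BB.uniq
  have hV : S_Rev := W973.BB.rev hR
  have hI : S_Inv := Pool.Agent.W82.BB.inv hR hH
  have hEx : S_Exit := Pool.Agent.W337.BB.exit_th
  have hE : S_Exist := Pool.Agent.W345.BB.exist hR hEx hUnif
  have hG : S_Gen := Pool.Agent.W337.BB.gen_th
  have hFl : S_Flow := Pool.Agent.W462.BBF.flow hR hM hO hU hV hH hB
  have hBad : S_Bad := Pool.Agent.W74.BB.bad
  have hMain : S_Main := main_est hB hH hR hI hFan hE hG hFl hBad
  exact final hMain (Pool.Agent.W396.BB.lim hH) (Pool.Agent.W803.BBD.dir_main hB hH)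
    (Pool.Agent.W101.BB.refl hB hH) Pool.Agent.W363.BB.rot Pool.Agent.W337.BB.tau_th
    Pool.Agent.W230.BB.Conv.conv hp

end Pool.Agent.W780.BB
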