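import Pool.Agent.W780.BB.Defs
import Pool.Agent.W780.PG.Stm

set_option autoImplicit false

/-!
Statements of the parts.
-/

namespace Pool.Agent.W780.BB

open Complex Set MeasureTheory Filter Topology Pool.Agent.W780.PG

open scoped Real ComplexConjugate

variable {n : ℕ}

/-- the side function of side `i`: positive to the left -/
noncomputable def sf (p : Fin (n + 3) → ℂ) (i : Fin (n + 3)) (z : ℂ) : ℝ := lft (p i) (p (i + 1)) z

/-- reflection in the line of side `i` -/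
noncomputable def rf (p : Fin (n + 3) → ℂ) (i : Fin (n + 3)) (z : ℂ) : ℂ :=
  p i + dir (2 * tau p i) * conj (z - p i)

/-- reflection of states -/
noncomputable def rs (p : Fin (n + 3) → ℂ) (i : Fin (n + 3)) (x : ℂ × ℝ) : ℂ × ℝ :=
  (rf p i x.1, 2 * tau p i - x.2)

/-- folding of points along a list of sides (the first side of the list first) -/
noncomputable def fp (p : Fin (n + 3) → ℂ) : List (Fin (n + 3)) → ℂ → ℂ
  | [], z => z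
  | i :: w, z => fp p w (rf p i z)

/-- folding of states -/
noncomputable def fd (p : Fin (n + 3) → ℂ) : List (Fin (n + 3)) → ℂ × ℝ → ℂ × ℝ
  | [], x => x
  | i :: w, x => fd p w (rs p i x)

/-- unfolding of points, the inverse of `fp` -/
noncomputable def uf (p : Fin (n + 3) → ℂ) : List (Fin (n + 3)) → ℂ → ℂ
  | [], z => z
  | i :: w, z => rf p i (uf p w z)

/-- the unfolded vertices, up to `K` reflections -/
def VK (p : Fin (n + 3) → ℂ) (K : ℕ) : Set ℂ :=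
  {a | ∃ w : List (Fin (n + 3)), w.length ≤ K ∧ ∃ j, a = uf p w (p j)}

/-- the point where the segment from `B` to `A` crosses the line of side `i` -/
noncomputable def cr (p : Fin (n + 3) → ℂ) (i : Fin (n + 3)) (B A : ℂ) : ℂ :=
  B + (sf p i B / (sf p i B - sf p i A)) • (A - B)

/-- The straight path from `B` to the unfolded point `A` crosses, after folding, the open sides in
the list, in this order. -/
def Ch (p : Fin (n + 3) → ℂ) : List (Fin (n + 3)) → ℂ → ℂ → Prop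
  | [], _, A => A ∈ reg p
  | i :: w, B, A => 0 < sf p i B ∧ sf p i A < 0 ∧ (∀ j, j ≠ i → 0 < sf p j (cr p i B A)) ∧
      Ch p w (cr p i B A) (rf p i A)

/-! ### Geometry of the reflections -/

def S_Ref : Prop := ∀ (n : ℕ) (p : Fin (n + 3) → ℂ), IsConvexPolygon p →
  (∀ i z, rf p i (rf p i z) = z) ∧ (∀ i z w, ‖rf p i z - rf p i w‖ = ‖z - w‖) ∧
  (∀ i z, sf p i (rf p i z) = - sf p i z) ∧ (∀ i z, sf p i z = 0 → rf p i z = z) ∧
  (∀ i z (s θ : ℝ), rf p i (z + s • dir θ) = rf p i z + s • dir (2 * tau p i - θ)) ∧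
  (∀ i z w (s : ℝ), rf p i (z + s • (w - z)) = rf p i z + s • (rf p i w - rf p i z)) ∧
  (∀ w z, fp p w (uf p w z) = z ∧ uf p w (fp p w z) = z) ∧
  (∀ w z w', ‖fp p w z - fp p w w'‖ = ‖z - w'‖) ∧
  (∀ w z θ, (fd p w (z, θ)).1 = fp p w z) ∧
  (∀ w z w' (s : ℝ), fp p w (z + s • (w' - z)) = fp p w z + s • (fp p w w' - fp p w z)) ∧
  (∀ w, ∃ (e c : ℝ), e = (-1) ^ w.length ∧ ∀ z θ, (fd p w (z, θ)).2 = e * θ + c ∧
    ∀ s : ℝ, fp p w (z + s • dir θ) = fp p w z + s • dir (e * θ + c)) ∧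
  (∀ K, (VK p K).Finite)

/-- Folding preserves the measure. -/
def S_Mp : Prop := ∀ (n : ℕ) (p : Fin (n + 3) → ℂ), IsConvexPolygon p →
  ∀ w : List (Fin (n + 3)), Continuous (fd p w) ∧ Function.Bijective (fd p w) ∧
    MeasurePreserving (fd p w) ∧
  ∀ S : Set (ℂ × ℝ), MeasurableSet S → (∀ z θ, (z, θ + 2 * π) ∈ S ↔ (z, θ) ∈ S) →
    volume ((fd p w ⁻¹' S) ∩ (univ ×ˢ Ico 0 (2 * π))) = volume (S ∩ (univ ×ˢ Ico 0 (2 * π)))

/-! ### Itineraries -/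

def S_Open : Prop := ∀ (n : ℕ) (p : Fin (n + 3) → ℂ), IsConvexPolygon p →
  ∀ w : List (Fin (n + 3)), IsOpen {x : ℂ × ℂ | Ch p w x.1 x.2}

def S_Uniq : Prop := ∀ (n : ℕ) (p : Fin (n + 3) → ℂ), IsConvexPolygon p →
  ∀ (w w' : List (Fin (n + 3))) (B A : ℂ), Ch p w B A → Ch p w' B A → w = w'

def S_Rev : Prop := ∀ (n : ℕ) (p : Fin (n + 3) → ℂ), IsConvexPolygon p →
  ∀ (w : List (Fin (n + 3))) (B A : ℂ), B ∈ reg p → Ch p w B A →
    Ch p w.reverse (fp p w A) (fp p w B)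

/-- Invariance along itineraries (`s` of either sign). -/
def S_Inv : Prop := ∀ (n : ℕ) (p : Fin (n + 3) → ℂ), IsConvexPolygon p →
  ∀ S : Set (ℂ × ℝ), IsInvariant p S →
  ∀ (w : List (Fin (n + 3))) (z : ℂ) (θ s : ℝ), z ∈ reg p → Ch p w z (z + s • dir θ) →
    ((z, θ) ∈ S ↔ fd p w (z + s • dir θ, θ) ∈ S)

/-- If the triangle contains no unfolded vertex, then both its sides have the same itinerary. -/
def S_Fan : Prop := ∀ (n : ℕ) (p : Fin (n + 3) → ℂ), IsConvexPolygon p →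
  ∀ (K : ℕ) (w : List (Fin (n + 3))) (B C A : ℂ), w.length ≤ K → B ∈ reg p → C ∈ reg p →
    Ch p w B A → (∀ a ∈ VK p K, a ∉ convexHull ℝ ({A, B, C} : Set ℂ)) → Ch p w C A

/-- The exit lemma. -/
def S_Exit : Prop := ∀ (n : ℕ) (p : Fin (n + 3) → ℂ), IsConvexPolygon p →
  ∀ B A : ℂ, (B ∈ reg p ∨ ∃ k, B ∈ side p k ∧ 0 < sf p k A) → A ∉ reg p →
    (∀ j, sf p j A ≠ 0) → (∀ j, p j ∉ segment ℝ B A) →
    ∃ i, 0 < sf p i B ∧ sf p i A < 0 ∧ ∀ j, j ≠ i → 0 < sf p j (cr p i B A)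

/-- Alternating crossings of two sides: `Y k` is on the side `i` or `j`, alternatingly. -/
def S_Alt : Prop := ∀ (n : ℕ) (p : Fin (n + 3) → ℂ), IsConvexPolygon p →
  ∃ (N : ℕ) (d : ℝ), 0 < d ∧ ∀ (u : ℕ → Fin (n + 3)) (y : ℕ → ℂ) (θ l : ℕ → ℝ) (m : ℕ),
    (∀ k ≤ m, y k ∈ side p (u k)) →
    (∀ k < m, 0 < l k ∧ y (k + 1) = y k + l k • dir (θ k) ∧
      θ (k + 1) = 2 * tau p (u (k + 1)) - θ k ∧ u (k + 1) ≠ u k) →
    (∀ k, k + 2 ≤ m → u (k + 2) = u k) → N ≤ m → ∃ k < m, d ≤ l k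

/-- Three crossings of three different sides take some time. -/
def S_Trip : Prop := ∀ (n : ℕ) (p : Fin (n + 3) → ℂ), IsConvexPolygon p →
  ∃ d : ℝ, 0 < d ∧ ∀ (i j k : Fin (n + 3)) (y₀ y₁ y₂ : ℂ) (θ l₀ l₁ : ℝ), i ≠ j → j ≠ k → i ≠ k →
    y₀ ∈ side p i → y₁ ∈ side p j → y₂ ∈ side p k → 0 < l₀ → 0 < l₁ →
    y₁ = y₀ + l₀ • dir θ → y₂ = y₁ + l₁ • dir (2 * tau p j - θ) → d ≤ l₀ + l₁

/-- The number of reflections in bounded time is bounded. -/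
def S_Unif : Prop := ∀ (n : ℕ) (p : Fin (n + 3) → ℂ), IsConvexPolygon p →
  ∀ T : ℝ, ∃ K : ℕ, ∀ (u : ℕ → Fin (n + 3)) (y : ℕ → ℂ) (θ l : ℕ → ℝ) (m : ℕ),
    (∀ k ≤ m, y k ∈ side p (u k)) →
    (∀ k < m, 0 < l k ∧ y (k + 1) = y k + l k • dir (θ k) ∧
      θ (k + 1) = 2 * tau p (u (k + 1)) - θ k ∧ u (k + 1) ≠ u k) →
    ∑ k ∈ Finset.range m, l k ≤ T → m ≤ K

/-- Existence of itineraries, with a bounded number of reflections. -/
def S_Exist : Prop := ∀ (n : ℕ) (p : Fin (n + 3) → ℂ), IsConvexPolygon p →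
  ∀ T : ℝ, ∃ K : ℕ, ∀ z ∈ reg p, ∀ A : ℂ, ‖A - z‖ ≤ T →
    (∀ w j, uf p w (p j) ∉ segment ℝ z A) → (∀ w i, sf p i (fp p w A) ≠ 0) →
    ∃ w : List (Fin (n + 3)), w.length ≤ K ∧ Ch p w z A

/-- Almost all states are generic. -/
def S_Gen : Prop := ∀ (n : ℕ) (p : Fin (n + 3) → ℂ), IsConvexPolygon p →
  ∀ T : ℝ, ∀ᵐ x : ℂ × ℝ, (∀ w j, uf p w (p j) ∉ segment ℝ x.1 (x.1 + T • dir x.2)) ∧
    (∀ w i, sf p i (fp p w (x.1 + T • dir x.2)) ≠ 0)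

/-! ### Measures -/

/-- The time `s` map does not increase measure (`s` of either sign). -/
def S_Flow : Prop := ∀ (n : ℕ) (p : Fin (n + 3) → ℂ), IsConvexPolygon p →
  ∀ (s : ℝ) (S : Set (ℂ × ℝ)), MeasurableSet S → (∀ z θ, (z, θ + 2 * π) ∈ S ↔ (z, θ) ∈ S) →
  ∀ W : Finset (List (Fin (n + 3))),
    volume {x : ℂ × ℝ | x ∈ phase p ∧ ∃ w ∈ W, Ch p w x.1 (x.1 + s • dir x.2) ∧
      fd p w (x.1 + s • dir x.2, x.2) ∈ S} ≤ volume (phase p ∩ S)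

/-- The states for which both thin triangles contain one of finitely many points. -/
def Bad (V : Set ℂ) (T h : ℝ) : Set (ℂ × ℝ) :=
  {x | x.2 ∈ Ico 0 (2 * π) ∧
    (∃ a ∈ V, a ∈ convexHull ℝ ({x.1 - T • dir x.2, x.1,
      x.1 + T • (dir (x.2 + h) - dir x.2)} : Set ℂ)) ∧
    (∃ a ∈ V, a ∈ convexHull ℝ ({x.1 + T • dir x.2, x.1,
      x.1 + T • (dir x.2 - dir (x.2 - h))} : Set ℂ))}

def S_Bad : Prop := ∀ (V : Set ℂ) (T ε : ℝ), V.Finite → 0 < T → 0 < ε →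
  ∀ᶠ h in 𝓝[>] (0 : ℝ), volume (Bad V T h) ≤ ENNReal.ofReal (ε * h)

/-- Transversal translations by `T sin h` change an invariant set of finite directional perimeter
by little. -/
def S_Main : Prop := ∀ (n : ℕ) (p : Fin (n + 3) → ℂ), IsConvexPolygon p →
  ∀ S : Set (ℂ × ℝ), MeasurableSet S → IsInvariant p S → ∀ C : ℝ, 0 ≤ C →
    (∀ h : ℝ, 0 < h → h < 1 →
      volume {x : ℂ × ℝ | x ∈ phase p ∧ ¬ (x ∈ S ↔ (x.1, x.2 + h) ∈ S)} ≤
        ENNReal.ofReal (C * h)) →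
    ∀ T η : ℝ, 0 < T → 0 < η → ∀ᶠ h in 𝓝[>] (0 : ℝ),
      volume {x : ℂ × ℝ | x ∈ phase p ∧ Metric.closedBall x.1 η ⊆ reg p ∧
        ¬ (x ∈ S ↔ (x.1 + (T * Real.sin h) • (I * dir x.2), x.2) ∈ S)} ≤
        ENNReal.ofReal ((6 * C + 1) * h)

/-- Small transversal translations do not change the set. -/
def S_Lim : Prop := S_Main → ∀ (n : ℕ) (p : Fin (n + 3) → ℂ), IsConvexPolygon p →
  ∀ S : Set (ℂ × ℝ), MeasurableSet S → IsInvariant p S → FinitePerimeter p S →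
    ∀ η δ : ℝ, 0 < δ → δ < η →
      volume {x : ℂ × ℝ | x ∈ phase p ∧ Metric.closedBall x.1 (2 * η) ⊆ reg p ∧
        ¬ (x ∈ S ↔ (x.1 + δ • (I * dir x.2), x.2) ∈ S)} = 0

/-- A set invariant under free motion and small transversal translations depends only on the
direction. -/
def S_Dir : Prop := ∀ (n : ℕ) (p : Fin (n + 3) → ℂ), IsConvexPolygon p →
  ∀ S : Set (ℂ × ℝ), MeasurableSet S → IsInvariant p S →
    (∀ η δ : ℝ, 0 < δ → δ < η →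
      volume {x : ℂ × ℝ | x ∈ phase p ∧ Metric.closedBall x.1 (2 * η) ⊆ reg p ∧
        ¬ (x ∈ S ↔ (x.1 + δ • (I * dir x.2), x.2) ∈ S)} = 0) →
    ∃ Θ : Set ℝ, MeasurableSet Θ ∧ (∀ θ, θ + 2 * π ∈ Θ ↔ θ ∈ Θ) ∧
      volume {x : ℂ × ℝ | x ∈ phase p ∧ ¬ (x ∈ S ↔ x.2 ∈ Θ)} = 0

/-- The set of directions is invariant under the reflections. -/
def S_Refl : Prop := ∀ (n : ℕ) (p : Fin (n + 3) → ℂ), IsConvexPolygon p →
  ∀ S : Set (ℂ × ℝ), MeasurableSet S → IsInvariant p S →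
  ∀ Θ : Set ℝ, MeasurableSet Θ → (∀ θ, θ + 2 * π ∈ Θ ↔ θ ∈ Θ) →
    volume {x : ℂ × ℝ | x ∈ phase p ∧ ¬ (x ∈ S ↔ x.2 ∈ Θ)} = 0 →
    ∀ i, ∀ᵐ θ : ℝ, (2 * tau p i - θ ∈ Θ ↔ θ ∈ Θ)

/-- Ergodicity of irrational rotations, in the form needed. -/
def S_Rot : Prop := ∀ (Θ : Set ℝ) (a b : ℝ), MeasurableSet Θ → (∀ θ, θ + 2 * π ∈ Θ ↔ θ ∈ Θ) →
  (∀ᵐ θ : ℝ, (2 * a - θ ∈ Θ ↔ θ ∈ Θ)) → (∀ᵐ θ : ℝ, (2 * b - θ ∈ Θ ↔ θ ∈ Θ)) →
  Irrational ((a - b) / π) → volume Θ = 0 ∨ volume Θᶜ = 0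

/-- The angle between two consecutive sides. -/
def S_Tau : Prop := ∀ (n : ℕ) (p : Fin (n + 3) → ℂ), IsConvexPolygon p →
  ∀ i, ∃ k : ℤ, tau p i - tau p (i - 1) = π - ang p i + 2 * k * π

/-- In a rational polygon there are nontrivial invariant sets of directions. -/
def S_Conv : Prop := S_Tau → ∀ (n : ℕ) (p : Fin (n + 3) → ℂ), IsConvexPolygon p →
  (∀ i, ¬ Irrational (ang p i / π)) →
  ∃ S : Set (ℂ × ℝ), MeasurableSet S ∧ IsInvariant p S ∧ FinitePerimeter p S ∧ ¬ IsTrivial p S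

end Pool.Agent.W780.BB
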