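import Pool.Agent.W780.BB.Stm

set_option autoImplicit false

/-!
Tools: shears are measure preserving; strips of periodic sets have the same measure.
-/

namespace Pool.Agent.W780.BB

open Complex Set MeasureTheory Filter Topology

open scoped Real

lemma shear (g : ℝ → ℂ) (hg : Measurable g) :
    MeasurePreserving (fun x : ℂ × ℝ => (x.1 + g x.2, x.2)) := by
  have h1 : MeasurePreserving (fun x : ℝ × ℂ => (x.1, x.2 + g x.1))
      ((volume : Measure ℝ).prod (volume : Measure ℂ))
      ((volume : Measure ℝ).prod (volume : Measure ℂ)) := by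
    refine MeasurePreserving.skew_product (g := fun t z => z + g t) (MeasurePreserving.id _) ?_ ?_
    · exact (measurable_snd.add (hg.comp measurable_fst))
    · exact Filter.Eventually.of_forall fun t => (measurePreserving_add_right volume (g t)).map_eq
  have h2 : MeasurePreserving (Prod.swap : ℂ × ℝ → ℝ × ℂ)
      ((volume : Measure ℂ).prod (volume : Measure ℝ))
      ((volume : Measure ℝ).prod (volume : Measure ℂ)) := Measure.measurePreserving_swap
  have h3 : MeasurePreserving (Prod.swap : ℝ × ℂ → ℂ × ℝ)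
      ((volume : Measure ℝ).prod (volume : Measure ℂ))
      ((volume : Measure ℂ).prod (volume : Measure ℝ)) := Measure.measurePreserving_swap
  exact h3.comp (h1.comp h2)

lemma shift (c : ℝ) : MeasurePreserving (fun x : ℂ × ℝ => (x.1, x.2 + c)) :=
  (MeasurePreserving.id (volume : Measure ℂ)).prod (measurePreserving_add_right volume c)

lemma strip1 (s : Set ℝ) (hs : MeasurableSet s) (hp : ∀ θ, θ + 2 * π ∈ s ↔ θ ∈ s) (a : ℝ) :
    volume (s ∩ Ico a (a + 2 * π)) = volume (s ∩ Ico 0 (2 * π)) := by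
  have key : ∀ b : ℝ, volume (s ∩ Ico b (b + 2 * π)) = volume (s ∩ Ioc b (b + 2 * π)) := by
    intro b
    apply measure_congr
    exact (Filter.EventuallyEq.rfl).inter (Ico_ae_eq_Ioc)
  have hz : ∀ (k : ℤ) θ, θ + k * (2 * π) ∈ s ↔ θ ∈ s := by
    intro k
    induction k using Int.induction_on with
    | zero => intro θ; simp
    | succ k ih =>
      intro θ
      have h1 := hp (θ + k * (2 * π))
      have h2 : θ + ((k : ℤ) + 1 : ℤ) * (2 * π) = θ + k * (2 * π) + 2 * π := by push_cast; ring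
      rw [h2, h1]
      have := ih θ
      push_cast at this
      exact this
    | pred k ih =>
      intro θ
      have h1 := hp (θ + (-(k : ℤ) - 1 : ℤ) * (2 * π))
      have h2 : θ + (-(k : ℤ) - 1 : ℤ) * (2 * π) + 2 * π = θ + (-(k : ℤ) : ℤ) * (2 * π) := by
        push_cast; ring
      rw [← h1, h2]
      exact ih θ
  rw [key a, show Ico (0 : ℝ) (2 * π) = Ico 0 (0 + 2 * π) by simp, key 0]
  refine (isAddFundamentalDomain_Ioc Real.two_pi_pos a).measure_set_eq
    (isAddFundamentalDomain_Ioc Real.two_pi_pos 0) ?_ ?_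
  · exact hs
  · rintro ⟨g, hg⟩
    obtain ⟨k, rfl⟩ := AddSubgroup.mem_zmultiples_iff.mp hg
    ext θ
    simp only [mem_preimage]
    rw [show ((⟨k • (2 * π), hg⟩ : AddSubgroup.zmultiples (2 * π)) +ᵥ θ : ℝ) = θ + k * (2 * π) by
      rw [AddSubgroup.vadd_def]
      simp [zsmul_eq_mul, add_comm]]
    exact hz k θ

lemma strip (S : Set (ℂ × ℝ)) (hS : MeasurableSet S)
    (hp : ∀ z θ, (z, θ + 2 * π) ∈ S ↔ (z, θ) ∈ S) (a : ℝ) :
    volume (S ∩ (univ ×ˢ Ico a (a + 2 * π))) = volume (S ∩ (univ ×ˢ Ico 0 (2 * π))) := by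
  have h : ∀ b : ℝ, volume (S ∩ (univ ×ˢ Ico b (b + 2 * π))) =
      ∫⁻ z : ℂ, volume ((Prod.mk z ⁻¹' S) ∩ Ico b (b + 2 * π)) := by
    intro b
    rw [Measure.volume_eq_prod, Measure.prod_apply
      (hS.inter (MeasurableSet.univ.prod measurableSet_Ico))]
    refine lintegral_congr fun z => ?_
    congr 1
    ext θ
    simp
  rw [h a, show (univ ×ˢ Ico (0 : ℝ) (2 * π) : Set (ℂ × ℝ)) = univ ×ˢ Ico 0 (0 + 2 * π) by simp,
    h 0]
  refine lintegral_congr fun z => ?_
  have hm : MeasurableSet (Prod.mk z ⁻¹' S) := measurable_prodMk_left hS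
  rw [strip1 _ hm (fun θ => hp z θ) a, strip1 _ hm (fun θ => hp z θ) 0]

end Pool.Agent.W780.BB
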